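import Pool.Agent.H534R3.CircNull
import Pool.Agent.H534R3.Rot

/-!
# The homeomorphism group of the ball is the union of a meagre set and a Haar null set

The witness measure is the image of the Haar measure of the circle under the action by rotations
of the ball in a coordinate plane.
-/

set_option autoImplicit false

open MeasureTheory Topology

namespace Pool.Agent.Results.MP_ee7e89_lc.BallDecomposition

/-- The closed unit ball of the Euclidean space of dimension `n`. -/
def Ball (n : ℕ) : Type := Metric.closedBall (0 : EuclideanSpace ℝ (Fin n)) 1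

/-- The topology of the ball, as a subspace of the Euclidean space. -/
instance instTopologicalSpaceBall (n : ℕ) : TopologicalSpace (Ball n) :=
  inferInstanceAs (TopologicalSpace (Metric.closedBall (0 : EuclideanSpace ℝ (Fin n)) 1))

/-- The unit sphere of the Euclidean space of dimension `n`, the boundary of the ball. -/
def Sph (n : ℕ) : Type := Metric.sphere (0 : EuclideanSpace ℝ (Fin n)) 1

/-- The topology of the sphere, as a subspace of the Euclidean space. -/
instance instTopologicalSpaceSph (n : ℕ) : TopologicalSpace (Sph n) :=
  inferInstanceAs (TopologicalSpace (Metric.sphere (0 : EuclideanSpace ℝ (Fin n)) 1))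

/-- The inclusion of the boundary sphere in the ball. -/
def incl {n : ℕ} (x : Sph n) : Ball n := ⟨x.1, Metric.sphere_subset_closedBall x.2⟩

/-- A continuous self-map of the ball preserves orientation if it restricts on the boundary sphere
to a self-map of the sphere which is homotopic to the identity of the sphere. -/
def OrientationPreserving {n : ℕ} (f : C(Ball n, Ball n)) : Prop :=
  ∃ φ : C(Sph n, Sph n), (∀ x : Sph n, f (incl x) = incl (φ x)) ∧
    φ.Homotopic (ContinuousMap.id (Sph n))

/-- The group of the orientation preserving homeomorphisms of the ball, inside the space of its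
continuous self-maps with the compact-open topology. -/
def HomeoPlus (n : ℕ) : Set C(Ball n, Ball n) :=
  {f | Function.Bijective f ∧ OrientationPreserving f}

/-- `N` is Haar null in the group `G` of homeomorphisms of `X`: it lies in a Borel set all of
whose two-sided translates are null for one Borel probability measure. -/
def HaarNull {X : Type} [TopologicalSpace X] {G : Set C(X, X)} (N : Set G) : Prop :=
  ∃ B : Set G, N ⊆ B ∧ @MeasurableSet G (borel G) B ∧
    ∃ μ : @Measure G (borel G), @IsProbabilityMeasure G (borel G) μ ∧
      ∀ g h : G, μ {x : G | ∃ b ∈ B, x.1 = g.1.comp (b.1.comp h.1)} = 0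

theorem result (n : ℕ) (hn : 2 ≤ n) :
    ∃ M N : Set (HomeoPlus n), M ∪ N = Set.univ ∧ IsMeagre M ∧ HaarNull N := by
  obtain ⟨d, rfl⟩ : ∃ d, n = d + 2 := ⟨n - 2, by omega⟩
  refine Pool.Agent.H534R3.CircNull.decompose (X := Pool.Agent.H534R3.Rot.DD d)
    (HomeoPlus (d + 2)) (fun f hf => hf.1) Pool.Agent.H534R3.Rot.RD
    Pool.Agent.H534R3.Rot.continuous_RD (fun s => ⟨Pool.Agent.H534R3.Rot.RD_bijective s, ?_⟩)
    Pool.Agent.H534R3.Rot.RD_zero Pool.Agent.H534R3.Rot.RD_add (1 / 2) one_half_pos
    Pool.Agent.H534R3.Rot.ball_big (borel _) rfl
  exact ⟨Pool.Agent.H534R3.Rot.RS s, fun x => rfl, Pool.Agent.H534R3.Rot.RS_homotopic s⟩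

end Pool.Agent.Results.MP_ee7e89_lc.BallDecomposition
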